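import Pool.Agent.Y517.NT.Geo
import Pool.Agent.Y455.SY.Pert
import Pool.Agent.Y484.SY.Gen

/-!
# The covector field `dg ∘ J` is a combination of differentials (job NT-ROT)
-/

set_option autoImplicit false

open Set Filter Topology MeasureTheory
open scoped Manifold ContDiff

noncomputable section

namespace Pool.Agent.Y161.NT

open Pool.Agent.Y501.SY Pool.Agent.Y455.SY

lemma sum_single {d : ℕ} (w : E d) :
    w = ∑ j, w j • (EuclideanSpace.single j (1 : ℝ) : E d) := by
  ext i
  simp [Finset.sum_apply, Pi.single_apply]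

/-- coordinates -/
def cc {d : ℕ} (w : E d) (j : Fin d) : ℝ := w j

variable {d : ℕ} {X : Type} [TopologicalSpace X] [ChartedSpace (E d) X] [IsManifold (𝓡 d) ∞ X]

lemma dd_J {J : End d X} {g : X → ℝ} (hg : SmoothFun (d := d) g) (z : X) {p : E d}
    (hp : p ∈ (chartAt (E d) z).target) (v : E d) :
    dd g ((chartAt (E d) z).symm p) (J ((chartAt (E d) z).symm p) v) =
      ∑ j, fderiv ℝ (g ∘ (chartAt (E d) z).symm) p
        (inChart J z p (EuclideanSpace.single j (1 : ℝ))) * (B z p v) j := by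
  have h1 : A z p (B z p v) = v := AB z hp v
  have h2 : ∀ w : E d, A z p (inChart J z p w) = J ((chartAt (E d) z).symm p) (A z p w) :=
    fun w => AB z hp _
  have h3 : ∀ w : E d, dd g ((chartAt (E d) z).symm p) (A z p w) =
      fderiv ℝ (g ∘ (chartAt (E d) z).symm) p w := by
    intro w
    exact Pool.Agent.Y484.SY.dd_comp (chartAt (E d) z).open_target
      (contMDiffOn_chart_symm (I := 𝓡 d)) hg hp w
  have h4 : dd g ((chartAt (E d) z).symm p) (J ((chartAt (E d) z).symm p) v) =
      fderiv ℝ (g ∘ (chartAt (E d) z).symm) p (inChart J z p (B z p v)) := by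
    rw [← h3, h2, h1]
  rw [h4]
  conv_lhs => rw [sum_single (B z p v), map_sum, map_sum]
  refine Finset.sum_congr rfl fun j _ => ?_
  rw [map_smul, map_smul, smul_eq_mul, mul_comm]

lemma local_rot [T2Space X] {J : End d X} (hJ : IsAlmostComplex J) {g : X → ℝ}
    (hg : SmoothFun (d := d) g) (z : X) :
    ∃ (V : Set X) (β h : Fin d → X → ℝ), IsOpen V ∧ z ∈ V ∧ (∀ j, ContinuousOn (β j) V) ∧
      (∀ j, SmoothFun (d := d) (h j)) ∧
      ∀ y ∈ V, ∀ v : TangentSpace (𝓡 d) y, dd g y (J y v) = ∑ j, β j y * dd (h j) y v := by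
  let c := chartAt (E d) z
  have hz : z ∈ c.source := mem_chart_source (E d) z
  have hcd : c.MDifferentiable (𝓡 d) (𝓡 d) := mdifferentiable_chart (I := 𝓡 d) z
  obtain ⟨b⟩ : Nonempty (SmoothBumpFunction (𝓡 d) z) := inferInstance
  let F : X → E d := fun x => b x • c x
  have hF : ContMDiff (𝓡 d) 𝓘(ℝ, E d) ∞ F := b.contMDiff_smul (contMDiffOn_chart (I := 𝓡 d))
  let h : Fin d → X → ℝ := fun j x => F x j
  have hh : ∀ j, SmoothFun (d := d) (h j) := by
    intro j
    exact ((EuclideanSpace.proj (𝕜 := ℝ) j : E d →L[ℝ] ℝ).contDiff.contMDiff).comp hF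
  let V : Set X := interior {x | b x = 1} ∩ c.source
  have hV : IsOpen V := isOpen_interior.inter c.open_source
  have hzV : z ∈ V := ⟨mem_interior_iff_mem_nhds.2 b.eventuallyEq_one, hz⟩
  have hdh : ∀ y ∈ V, ∀ j (v : TangentSpace (𝓡 d) y),
      dd (h j) y v = cc (mfderiv (𝓡 d) (𝓡 d) c y v) j := by
    intro y hy j v
    have e1 : h j =ᶠ[𝓝 y] (EuclideanSpace.proj (𝕜 := ℝ) j : E d →L[ℝ] ℝ) ∘ c := by
      filter_upwards [isOpen_interior.mem_nhds hy.1] with x hx
      have hx1 : x ∈ {x | b x = 1} := interior_subset hx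
      have hx' : b x = 1 := hx1
      change (b x • c x : E d) j = c x j
      rw [hx']
      exact congrArg (fun w : E d => w j) (one_smul ℝ (c x))
    have hcy : MDifferentiableAt (𝓡 d) 𝓘(ℝ, E d) c y := hcd.mdifferentiableAt hy.2
    unfold dd
    rw [e1.mfderiv_eq, mfderiv_comp y
      ((EuclideanSpace.proj (𝕜 := ℝ) j : E d →L[ℝ] ℝ).contDiff.contMDiff.mdifferentiableAt
        (n := 1) one_ne_zero) hcy,
      mfderiv_eq_fderiv, ContinuousLinearMap.fderiv]
    rfl
  refine ⟨V, fun j y => fderiv ℝ (g ∘ c.symm) (c y)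
    (inChart J z (c y) (EuclideanSpace.single j (1 : ℝ))), h, hV, hzV, ?_, hh, ?_⟩
  · intro j
    have h1 : ContDiffOn ℝ ∞ (g ∘ c.symm) c.target :=
      Pool.Agent.Y484.SY.comp_smooth (contMDiffOn_chart_symm (I := 𝓡 d)) hg
    have h2 : ContinuousOn (fderiv ℝ (g ∘ c.symm)) c.target :=
      h1.continuousOn_fderiv_of_isOpen c.open_target (by simp)
    have h3 : ContinuousOn (fun p => fderiv ℝ (g ∘ c.symm) p
        (inChart J z p (EuclideanSpace.single j (1 : ℝ)))) c.target :=
      h2.clm_apply ((hJ.cont z).clm_apply continuousOn_const)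
    have h4 : ContinuousOn c V := c.continuousOn.mono inter_subset_right
    exact h3.comp h4 fun y hy => c.map_source hy.2
  · intro y hy
    obtain ⟨p, hp, hpy⟩ : ∃ p ∈ c.target, y = c.symm p :=
      ⟨c y, c.map_source hy.2, (c.left_inv hy.2).symm⟩
    subst hpy
    intro v
    rw [dd_J hg z hp v]
    refine Finset.sum_congr rfl fun j _ => ?_
    rw [hdh _ hy]
    have h5 : c (c.symm p) = p := c.right_inv hp
    simp only [h5]
    rfl

theorem t_ROT : Pool.Agent.Y517.NT.S_ROT := by
  intro d X _ _ _ _ _ J hJ g hg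
  choose V β h hV hzV hβ hh heq using fun z : X => local_rot (d := d) hJ hg z
  obtain ⟨t, ht⟩ := CompactSpace.elim_nhds_subcover V fun z => (hV z).mem_nhds (hzV z)
  have hcov : (univ : Set X) ⊆ ⋃ i : t, V i := by
    intro x _
    have hx : x ∈ ⋃ z ∈ t, V z := by rw [ht]; trivial
    obtain ⟨z, hz, hxz⟩ := mem_iUnion₂.1 hx
    exact mem_iUnion.2 ⟨⟨z, hz⟩, hxz⟩
  obtain ⟨ρ, hρ⟩ := PartitionOfUnity.exists_isSubordinate isClosed_univ (fun i : t => V i)
    (fun i => hV i) hcov
  have hsum : ∀ x, ∑ i : t, ρ i x = 1 := by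
    intro x
    rw [← finsum_eq_sum_of_fintype]
    exact ρ.sum_eq_one (mem_univ x)
  let e := Fintype.equivFin (t × Fin d)
  refine ⟨Fintype.card (t × Fin d), fun k x => ρ (e.symm k).1 x * β (e.symm k).1 (e.symm k).2 x,
    fun k => h (e.symm k).1 (e.symm k).2, ?_, fun k => hh _ _, ?_⟩
  · intro k
    have h1 : ContinuousOn (fun x => ρ (e.symm k).1 x * β (e.symm k).1 (e.symm k).2 x)
        (V (e.symm k).1) := (ρ (e.symm k).1).continuous.continuousOn.mul (hβ _ _)
    refine h1.continuous_of_tsupport_subset (hV _) ?_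
    exact tsupport_mul_subset_left.trans (hρ _)
  · intro x v
    rw [e.symm.sum_comp (fun q : t × Fin d => ρ q.1 x * β q.1 q.2 x * dd (h q.1 q.2) x v),
      Fintype.sum_prod_type]
    have h2 : ∀ i : t, ∑ j, ρ i x * β i j x * dd (h i j) x v = ρ i x * dd g x (J x v) := by
      intro i
      by_cases hx : x ∈ V i
      · rw [heq i x hx v, Finset.mul_sum]
        exact Finset.sum_congr rfl fun j _ => mul_assoc _ _ _
      · have h3 : ρ i x = 0 := by
          by_contra h4
          exact hx (hρ i (subset_tsupport _ h4))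
        rw [h3, zero_mul]
        exact Finset.sum_eq_zero fun j _ => by rw [zero_mul, zero_mul]
    rw [Finset.sum_congr rfl fun i _ => h2 i, ← Finset.sum_mul, hsum, one_mul]

end Pool.Agent.Y161.NT
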